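import Pool.Agent.H73.FF.Bridge

/-!
# Geometric origin over infinite Galois extensions

Let `K` be a field of characteristic zero, for example an imaginary quadratic field, `ℓ` a prime
number (the `p` of the problem) and `ρ` a continuous representation of `G_K` over `ℚ_ℓ-bar`, for
example the representation of a Bianchi newform. Let `L` be an algebraic extension of `K` of infinite
degree. Suppose that the restriction of `ρ` to `G_L` arises from the étale cohomology of a smooth
projective variety over `L`. The variety is defined over a finite subextension `K'` of `L`; regarded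
as a variety over `K` it has a cohomology `θ` (with a Tate twist), a representation of `G_K` whose
restriction to `G_K'` contains the given one. So `ρ|G_L` is a subquotient of `θ|G_L`. We ask how `ρ`
itself is then obtained from `θ` over `K`.

For an arbitrary Galois extension the answer is: up to tensoring with representations of `Gal(L/K)`.
-/

set_option autoImplicit false

namespace Pool.Agent.Results.MP_2e0e07_nt.GaloisExtensions

open Pool.Agent.H73.FF.Stm

/-- Let `K` be a field of characteristic zero, `ℓ` a prime number, `ρ` and `θ` continuous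
representations of `G_K` over `ℚ_ℓ-bar`, `ρ` irreducible, and `L/K` a Galois extension, of finite or
infinite degree. There is a nonzero homomorphism from `ρ|G_L` to `θ|G_L` if and only if `ρ` is a
subrepresentation of `θ ⊗ τ` for some continuous representation `τ` of `Gal(L/K)`; this is so if `θ`
is semisimple and `ρ|G_L` is a subquotient of `θ|G_L`. If `ρ|G_L` is irreducible, it is equivalent
that `ρ ⊗ τ` is a subrepresentation of `θ` for some continuous representation `τ ≠ 0` of
`Gal(L/K)`. -/
theorem result (ℓ : ℕ) [Fact ℓ.Prime] (K : Type) [Field K] [CharZero K] (n m : ℕ)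
    (ρ : Rep K ℓ n) (θ : Rep K ℓ m) (hρ : Continuous ρ) (hθ : Continuous θ)
    (L : IntermediateField K (SeparableClosure K)) (hG : IsGalois K L)
    (hirr : IrreducibleOn ⊤ ρ) :
    (Hom L ρ θ ↔ SubTensorOver L ρ θ) ∧
    (Semisimple θ → Subquotient (Grp L) ρ θ → SubTensorOver L ρ θ) ∧
    (IrreducibleOn (Grp L) ρ → (Hom L ρ θ ↔ TensorOver L ρ θ)) := by
  have hn : (L.fixingSubgroup).Normal := (InfiniteGalois.normal_iff_isGalois L).mpr hG
  have key : Hom L ρ θ → SubTensorOver L ρ θ := fun h =>
    Pool.Agent.H73.FF.tensor_sup ρ θ hρ hθ L hn (Pool.Agent.H73.FF.irr_of_stm ρ hirr) h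
  refine ⟨⟨key, ?_⟩, fun hss h => key (Pool.Agent.H73.FF.hom_of_sub L ρ θ hn hirr.1 hss h),
    fun hirr' => Pool.Agent.H73.FF.tensor_iff L ρ θ hρ hθ hn hirr'⟩
  rintro ⟨k, τ, -, hτ, J, hJ, hJg⟩
  exact Pool.Agent.H73.FF.meet_of_sup ρ θ hirr.1 L τ hτ J hJ hJg


end Pool.Agent.Results.MP_2e0e07_nt.GaloisExtensions
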