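import Pool.Agent.H73.FF.Bridge

/-!
# Geometric origin over infinite extensions of finite `ℓ`-part or with a torsion group

Let `K` be a field of characteristic zero, for example an imaginary quadratic field, `ℓ` a prime
number (the `p` of the problem) and `ρ` a continuous representation of `G_K` over `ℚ_ℓ-bar`, for
example the representation of a Bianchi newform. Let `L` be an algebraic extension of `K` of infinite
degree. Suppose that the restriction of `ρ` to `G_L` arises from the étale cohomology of a smooth
projective variety over `L`. The variety is defined over a finite subextension `K'` of `L`; regarded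
as a variety over `K` it has a cohomology `θ` (with a Tate twist), a representation of `G_K` whose
restriction to `G_K'` contains the given one. So `ρ|G_L` is a subquotient of `θ|G_L`. We ask how `ρ`
itself is then obtained from `θ` over `K`.

The theorem applies for example to the fixed field of a Sylow pro-`ℓ` subgroup of `G_K`, to
`ℤ_q`-extensions and to the fields of the `q`-power torsion points of abelian varieties, for primes
`q ≠ ℓ`.
-/

set_option autoImplicit false

namespace Pool.Agent.Results.MP_2e0e07_nt.InfiniteDescent

open Pool.Agent.H73.FF.Stm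

/-- Let `K` be a field of characteristic zero, `ℓ` a prime number, `ρ` and `θ` continuous
representations of `G_K` over `ℚ_ℓ-bar` and `L/K` an algebraic extension, of finite or
infinite degree. Suppose that

* either the `ℓ`-part of the degree of `L/K` is finite, that is, for some `C` no finite subextension
  `M` has a degree `[M : K]` divisible by `ℓ ^ (C + 1)`,
* or `L/K` is Galois, all elements of `Gal(L/K)` have finite order, and `θ` is semisimple.

If `ρ|G_L` is a subquotient of `θ|G_L`, then `ρ|G_M` is a subquotient of `θ|G_M` for a finite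
subextension `M` of `L`, and `ρ` is a subquotient of the representation of `G_K` induced from
`θ|G_M`. -/
theorem result (ℓ : ℕ) [Fact ℓ.Prime] (K : Type) [Field K] [CharZero K] (n m : ℕ)
    (ρ : Rep K ℓ n) (θ : Rep K ℓ m) (hρ : Continuous ρ) (hθ : Continuous θ)
    (L : IntermediateField K (SeparableClosure K)) 
    (hL : FiniteEllPart ℓ L ∨ (TorsionGalois L ∧ Semisimple θ))
    (h : Subquotient (Grp L) ρ θ) : Descends L ρ θ := by
  rcases hL with ⟨C, hC⟩ | ⟨⟨hG, htor⟩, hss⟩
  · obtain ⟨M, h1, h2, h3⟩ := Pool.Agent.H73.FF.descend_index ρ θ hρ hθ L C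
      (fun M h1 h2 => hC M ⟨h1, h2⟩) (Pool.Agent.H73.FF.over_of_stm L ρ θ h)
    exact ⟨M, ⟨h1, h2⟩, Pool.Agent.H73.FF.stm_of_over M ρ θ h3,
      Pool.Agent.H73.FF.stm_of_induced M ρ θ (Pool.Agent.H73.FF.sub_induced M ρ θ h3)⟩
  · have hn : (L.fixingSubgroup).Normal := (InfiniteGalois.normal_iff_isGalois L).mpr hG
    obtain ⟨M, h1, h2, h3⟩ := Pool.Agent.H73.FF.descend_torsion ρ θ hρ hθ L htor
      (Pool.Agent.H73.FF.sub_of_subquotient L ρ θ (Pool.Agent.H73.FF.ss_of_stm θ hss)
        (Pool.Agent.H73.FF.over_of_stm L ρ θ h))
    have h4 := Pool.Agent.H73.FF.subquotient_of_sub M ρ θ h3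
    exact ⟨M, ⟨h1, h2⟩, Pool.Agent.H73.FF.stm_of_over M ρ θ h4,
      Pool.Agent.H73.FF.stm_of_induced M ρ θ (Pool.Agent.H73.FF.sub_induced M ρ θ h4)⟩

end Pool.Agent.Results.MP_2e0e07_nt.InfiniteDescent
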