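import Pool.Agent.H52.RO.Core
import Pool.Graph.R_pool_sql_team_seeded_64922ed1.X289.EI.Gal
import Pool.Graph.R_pool_sql_team_seeded_64922ed1.X320.DS.St

/-!
# One residual representation decides the geometric origin

Let `F` be a number field, `S` a finite set of prime numbers, `p` a prime number, `k` a finite
extension of `ℚ_p`, `E` a number field in `k`, and `n`, `N`, `w` natural numbers.  There is a
finite set `Λ₀` of primes of `E`, depending only on these data, with the following property.  Let
`ρ`, for example the representation `ρ_{f,p}` of a Bianchi newform `f` (`n = 2`), and `W`, for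
example `H^i (X, ℚ_p) ⊗ k` for a smooth projective variety `X` over `F` with good reduction
outside `S`, with `i ≤ w` and `i`-th Betti number at most `N`, be continuous representations of
`G_F` over `k` of dimension `n` and at most `N`, unramified outside `p` and `S`, whose Frobenius
polynomials at the places `v` not above `p` and `S` come from polynomials `f_v`, `g_v` over the ring
of integers of `E` whose complex roots have absolute value at most `(N v) ^ (w / 2)`.  Let `λ` be a
prime of `E` which is not in `Λ₀`, and suppose that `f_v` divides `g_v ^ n` modulo `λ` for the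
places `v` not above `p`, `S` and the prime number below `λ`; this holds in particular if the
residual representation `ρbar` modulo `λ` is a subquotient of the residual representation of `W`,
for example of `(H^i (X, ℤ_ℓ) / torsion) ⊗ 𝔽bar_ℓ`.  If `ρ` is irreducible over an algebraically
closed field `Ω` containing `k`, for example `ℚbar_p`, then it is a subquotient of
`W^{⊗ a} ⊗ (W^*)^{⊗ b}` over `Ω` for some `a`, `b`, in the example by Künneth and Poincaré duality
of a Tate twist of the cohomology of a power of `X`.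

So, for varieties with good reduction outside `S` and bounded Betti numbers, the residual
representation of `f` modulo ONE prime `λ` outside `Λ₀`, in any residue characteristic, decides
whether `ρ_{f,p}` has geometric origin: if `ρbar_{f,λ}` arises from the étale cohomology modulo `λ`
of such a variety `X`, then `ρ_{f,p}` arises from the étale cohomology of a power of the same `X`.
For the weights: the complex roots of the Frobenius polynomials of a Bianchi newform of weight
`k + 2` are at most `(N v) ^ ((k + 2) / 2)` by the bound of Jacquet and Shalika, so that `w = k + 2`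
is allowed.

The proof.  By Faltings's argument (`FinitePropagation` in `MP_f68ac8_nt`) only finitely many pairs
of trace functions of `ρ` and `W` are possible.  If for one pair there were infinitely many `λ`, then
`f_v` would divide `g_v ^ n` in characteristic zero, for all `v`, since the pair determines `f_v` and
`g_v`.  By density of the Frobenius elements all eigenvalues of `ρ (g)` are eigenvalues of `W (g)`
for all `g`, and the criterion of `OnePrimeSuffices` (in the library) applies.
-/

set_option autoImplicit false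

open NumberField Module Polynomial IsDedekindDomain

namespace Pool.Agent.Results.MP_2e0e07_nt.ResidualOrigin

open Pool.Agent.X320.DS.St (Rep IsSubquotient Irreducible)

attribute [local instance 10] DivisionRing.toRatAlgebra

/-- the absolute Galois group of `ℚ` -/
abbrev GQ : Type := Gal(AlgebraicClosure ℚ/ℚ)

/-- the ring of all algebraic integers -/
abbrev ZBar : Type := 𝓞 (AlgebraicClosure ℚ)

/-- the number fields, as subfields of the algebraic closure of `ℚ`; the absolute Galois group of
`F` is `F.fixingSubgroup` -/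
abbrev Sub : Type := IntermediateField ℚ (AlgebraicClosure ℚ)

/-- `τ` lies in the inertia group at the maximal ideal `P` of the ring of all algebraic integers -/
def Inertia (P : Ideal ZBar) (τ : GQ) : Prop := ∀ x : ZBar, τ • x - x ∈ P

/-- the number of elements of the residue field of `F` at the place `v` -/
noncomputable def norm {F : Sub} (v : Ideal (𝓞 F)) : ℕ := Nat.card (𝓞 F ⧸ v)

/-- `σ` in `G_F` is a (geometric) Frobenius element at the maximal ideal `P` of the ring of all
algebraic integers: it induces the inverse of `x ↦ x ^ N` on the residue field of `P`, where `N` is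
the number of elements of the residue field of `F` at the place below `P` -/
def Frobenius {F : Sub} (P : Ideal ZBar) (σ : F.fixingSubgroup) : Prop :=
  ∀ x : ZBar, x - ((σ : GQ) • x) ^ norm (P.under (𝓞 F)) ∈ P

/-- `P` is a maximal ideal of the ring of all algebraic integers above a prime number which is not
in `S` and not equal to `p` -/
def Away (S : Finset ℕ) (p : ℕ) (P : Ideal ZBar) : Prop :=
  P.IsMaximal ∧ ∃ q : ℕ, q.Prime ∧ q ∉ S ∧ q ≠ p ∧ (q : ZBar) ∈ P

section rep

variable {F : Sub} {k : Type} [NormedField k] {n N : ℕ} {E : Type} [Field E]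

/-- `ρ` is continuous and unramified outside the prime numbers in `S` and `p`, and its Frobenius
polynomials at the places `v` away from `S` and `p` come from the polynomials `f v` over the ring
of integers of `E`, all complex roots of which have absolute value at most `(N v) ^ (w / 2)` -/
structure Admissible (ι : E →+* k) (w p : ℕ) (S : Finset ℕ)
    (ρ : F.fixingSubgroup →* Matrix.GeneralLinearGroup (Fin n) k) (f : Ideal (𝓞 F) → (𝓞 E)[X]) :
    Prop where
  continuous : Continuous ρ
  unramified : ∀ P : Ideal ZBar, Away S p P → ∀ τ : F.fixingSubgroup, Inertia P τ → ρ τ = 1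
  frobenius : ∀ P : Ideal ZBar, Away S p P → ∀ σ : F.fixingSubgroup, Frobenius P σ →
    (ρ σ : Matrix (Fin n) (Fin n) k).charpoly =
      (f (P.under (𝓞 F))).map (ι.comp (algebraMap (𝓞 E) E))
  weight : ∀ P : Ideal ZBar, Away S p P → ∀ (φ : E →+* ℂ) (z : ℂ),
    ((f (P.under (𝓞 F))).map (φ.comp (algebraMap (𝓞 E) E))).eval z = 0 →
      ‖z‖ ^ 2 ≤ (norm (P.under (𝓞 F)) : ℝ) ^ w

end rep

/-- for the places `v` away from `S`, `p` and the prime number below `lam`: `f v` divides
`(g v) ^ n` modulo `lam` -/
def DividesModulo {F : Sub} {E : Type} [Field E] (S : Finset ℕ) (p n : ℕ)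
    (lam : HeightOneSpectrum (𝓞 E)) (f g : Ideal (𝓞 F) → (𝓞 E)[X]) : Prop :=
  ∀ P : Ideal ZBar, Away S p P → (∀ q : ℕ, q.Prime → (q : ZBar) ∈ P → (q : 𝓞 E) ∉ lam.asIdeal) →
    (f (P.under (𝓞 F))).map (Ideal.Quotient.mk lam.asIdeal) ∣
      ((g (P.under (𝓞 F))).map (Ideal.Quotient.mk lam.asIdeal)) ^ n

/-- `r` is a subquotient of `s`: there is a stable subspace `Y` of the space of `s` with an
equivariant surjection onto the space of `r` -/
def Subquotient {G κ : Type} [Group G] [Field κ] {n N : ℕ} (r : Rep G κ n) (s : Rep G κ N) : Prop :=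
  ∃ (Y : Submodule κ (Fin N → κ)) (π : Y →ₗ[κ] (Fin n → κ)), Function.Surjective π ∧
    ∀ g (u : Y), ∃ h : (s g : Matrix (Fin N) (Fin N) κ).mulVec u.1 ∈ Y,
      π ⟨(s g : Matrix (Fin N) (Fin N) κ).mulVec u.1, h⟩ =
        (r g : Matrix (Fin n) (Fin n) κ).mulVec (π u)

/-- Over an algebraically closed field `κ` containing the residue field of `lam` there are
representations `r` and `s` of `G_F` such that `r` is a subquotient of `s` and the Frobenius
polynomials of `r` and `s` at the places `v` away from `S`, `p` and the prime number below `lam` are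
the reductions of `f v` and `g v`. -/
def ResidualSubquotient {F : Sub} {E : Type} [Field E] (S : Finset ℕ) (p n N : ℕ)
    (lam : HeightOneSpectrum (𝓞 E)) (f g : Ideal (𝓞 F) → (𝓞 E)[X]) : Prop :=
  ∃ (κ : Type) (_ : Field κ) (_ : IsAlgClosed κ) (φ : 𝓞 E →+* κ) (r : Rep F.fixingSubgroup κ n)
    (s : Rep F.fixingSubgroup κ N), RingHom.ker φ = lam.asIdeal ∧ Subquotient r s ∧
      ∀ P : Ideal ZBar, Away S p P →
        (∀ q : ℕ, q.Prime → (q : ZBar) ∈ P → (q : 𝓞 E) ∉ lam.asIdeal) →
          ∀ σ : F.fixingSubgroup, Frobenius P σ →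
            (r σ : Matrix (Fin n) (Fin n) κ).charpoly = (f (P.under (𝓞 F))).map φ ∧
            (s σ : Matrix (Fin N) (Fin N) κ).charpoly = (g (P.under (𝓞 F))).map φ

/-- the base change of `ρ` to the field `Ω` -/
noncomputable def extend {G k Ω : Type} [Group G] [Field k] [Field Ω] {n : ℕ} (j : k →+* Ω)
    (ρ : G →* Matrix.GeneralLinearGroup (Fin n) k) : Rep G Ω n :=
  (Matrix.GeneralLinearGroup.map j).comp ρ

/-- `ρ` is a subquotient of `W^{⊗ a} ⊗ (W^*)^{⊗ b}` for some `a`, `b`, where `W` is the space of
`θ` -/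
def InTensors {G Ω : Type} [Group G] [Field Ω] {n m : ℕ} (ρ : Rep G Ω n) (θ : Rep G Ω m) : Prop :=
  ∃ a b, IsSubquotient ρ θ ⊤ a b

theorem inTensors_of {G Ω : Type} [Group G] [Field Ω] [IsAlgClosed Ω] [CharZero Ω] {n m : ℕ}
    {ρ : Rep G Ω n} {θ : Rep G Ω m} (h : ∀ g, Pool.Agent.X289.EI.Among ρ θ g)
    (hρ : Irreducible ρ) : InTensors ρ θ := by
  have h1 : ∀ s t, (fun g => Pool.Agent.X320.DS.St.mat ρ g s t) ∈ Pool.Agent.X320.DS.algT θ :=
    fun s t => Pool.Agent.X289.EI.entries_mem (ρ := ρ) (θ := θ) h hρ.semisimple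
      (Pool.Agent.X320.DS.ent_mem ρ s t)
  obtain ⟨a, b, S, π, hπ, hS⟩ := Pool.Agent.X320.DS.tannaka hρ.1 ρ hρ.2 θ (⊤ : Subgroup G)
    (fun s t g => Pool.Agent.X320.DS.St.mat ρ g s t) h1 (fun _ _ _ _ => rfl)
  exact ⟨a, b, Pool.Agent.X320.DS.St.isSubquotient_iff _ _ _ _ _ ⟨S, π, hπ, hS⟩⟩

theorem coeff_zero_of_dvd {A B : Type} [CommRing A] [CommRing B] (φ : A →+* B) {f g : A[X]} {n : ℕ}
    (hf : f.Monic) (h : f.map φ ∣ (g.map φ) ^ n) (i : ℕ) : φ ((g ^ n %ₘ f).coeff i) = 0 := by
  rw [← Polynomial.coeff_map, Polynomial.map_modByMonic φ hf, Polynomial.map_pow,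
    (Polynomial.modByMonic_eq_zero_iff_dvd (hf.map φ)).2 h, Polynomial.coeff_zero]

/-- a prime number in a maximal ideal is unique -/
theorem prime_unique {P : Ideal ZBar} (hP : P.IsMaximal) {q q' : ℕ} (hq : q.Prime) (hq' : q'.Prime)
    (h : (q : ZBar) ∈ P) (h' : (q' : ZBar) ∈ P) : q = q' := by
  by_contra hne
  have hc : IsCoprime (q : ℤ) (q' : ℤ) := by
    rw [Nat.isCoprime_iff_coprime]
    exact (Nat.coprime_primes hq hq').2 hne
  obtain ⟨a, b, hab⟩ := hc
  apply hP.ne_top
  rw [Ideal.eq_top_iff_one]
  have h1 : (1 : ZBar) = (a : ZBar) * (q : ZBar) + (b : ZBar) * (q' : ZBar) := by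
    have := congrArg (Int.cast : ℤ → ZBar) hab
    push_cast at this
    exact this.symm
  rw [h1]
  exact P.add_mem (P.mul_mem_left _ h) (P.mul_mem_left _ h')

/-- **One residual representation decides.**  There is a finite set `Λ₀` of primes of `E` such that
for all admissible `ρ` of dimension `n` and `W` of dimension at most `N` and every prime `lam` of
`E` outside `Λ₀`: if the Frobenius polynomials of `ρ` divide the `n`-th powers of those of `W` modulo
`lam`, or if modulo `lam` the residual representation of `ρ` is a subquotient of that of `W`, then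
`ρ` is a subquotient of `W^{⊗ a} ⊗ (W^*)^{⊗ b}` for some `a`, `b`, over every algebraically closed
field over which `ρ` is irreducible. -/
theorem result (F : Sub) (hF : FiniteDimensional ℚ F) (p : ℕ) [Fact p.Prime] (k : Type)
    [NormedField k] [NormedAlgebra ℚ_[p] k] (hk : FiniteDimensional ℚ_[p] k)
    (E : Type) [Field E] [NumberField E] (ι : E →+* k) (w n N : ℕ) (S : Finset ℕ) :
    ∃ Λ₀ : Set (HeightOneSpectrum (𝓞 E)), Λ₀.Finite ∧
      ∀ (ρ : F.fixingSubgroup →* Matrix.GeneralLinearGroup (Fin n) k)
        (f : Ideal (𝓞 F) → (𝓞 E)[X]), Admissible ι w p S ρ f →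
      ∀ N' ≤ N, ∀ (W : F.fixingSubgroup →* Matrix.GeneralLinearGroup (Fin N') k)
        (g : Ideal (𝓞 F) → (𝓞 E)[X]), Admissible ι w p S W g →
      ∀ lam : HeightOneSpectrum (𝓞 E), lam ∉ Λ₀ →
        (DividesModulo S p n lam f g ∨ ResidualSubquotient S p n N' lam f g) →
      ∀ (Ω : Type) [Field Ω] [IsAlgClosed Ω] (j : k →+* Ω),
        Irreducible (extend j ρ) → InTensors (extend j ρ) (extend j W) := by
  classical
  have hchar : CharZero k := charZero_of_injective_algebraMap (algebraMap ℚ_[p] k).injective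
  obtain ⟨S', hS'⟩ : ∃ S' : Finset ℕ, S' = (insert p S).filter Nat.Prime := ⟨_, rfl⟩
  have hS'p : ∀ q ∈ S', q.Prime := by
    intro q hq
    rw [hS'] at hq
    exact (Finset.mem_filter.1 hq).2
  have hS'iff : ∀ q : ℕ, q.Prime → (q ∉ S' ↔ q ∉ S ∧ q ≠ p) := by
    intro q hq
    rw [hS', Finset.mem_filter, Finset.mem_insert, not_and', not_or]
    constructor
    · intro h
      exact ⟨(h hq).2, (h hq).1⟩
    · intro h _
      exact ⟨h.2, h.1⟩
  have haway : ∀ q : ℕ, q.Prime → q ∉ S' → ∀ P : Ideal ZBar, P.IsMaximal → (q : ZBar) ∈ P →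
      Away S p P := fun q hq hqS P hP hqP =>
    ⟨hP, q, hq, ((hS'iff q hq).1 hqS).1, ((hS'iff q hq).1 hqS).2, hqP⟩
  obtain ⟨b, hb⟩ : ∃ b : Ideal (𝓞 F) → ℝ, b = fun v => Real.sqrt ((norm v : ℝ) ^ w) := ⟨_, rfl⟩
  have hAdm : ∀ {r : ℕ} {ρ : F.fixingSubgroup →* Matrix.GeneralLinearGroup (Fin r) k}
      {f : Ideal (𝓞 F) → (𝓞 E)[X]}, Admissible ι w p S ρ f →
        Pool.Agent.helper972_fp.Adm S' ρ ∧ Pool.Agent.H52.RO.Poly ι b S' ρ f := by
    intro r ρ f h
    refine ⟨⟨h.continuous, fun q hq hqS P hP hqP τ hτ =>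
      h.unramified P (haway q hq hqS P hP hqP) τ hτ⟩,
      ⟨fun q hq hqS P hP hqP σ hσ => h.frobenius P (haway q hq hqS P hP hqP) σ hσ,
        fun q hq hqS P hP hqP φ z hz => ?_⟩⟩
    rw [hb]
    exact Real.le_sqrt_of_sq_le (h.weight P (haway q hq hqS P hP hqP) φ z hz)
  choose Λ hΛ hcore using fun N' : ℕ =>
    Pool.Agent.H52.RO.core (F := F) (k := k) p ι S' hS'p n N' b
  refine ⟨⋃ N' ∈ Finset.range (N + 1), Λ N',
    Set.Finite.biUnion (Finset.finite_toSet _) fun N' _ => hΛ N', ?_⟩
  intro ρ f hρ N' hN' W g hW lam hlam hmod Ω _ _ j hirr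
  have hlam' : lam ∉ Λ N' := fun h => hlam (Set.mem_biUnion (x := N')
    (Finset.mem_coe.2 (Finset.mem_range.2 (by omega))) h)
  have hcharΩ : CharZero Ω := charZero_of_injective_ringHom j.injective
  obtain ⟨a1, a2⟩ := hAdm hρ
  obtain ⟨b1, b2⟩ := hAdm hW
  have hdiv : Pool.Agent.H52.RO.DivMod (F := F) S' n lam f g := by
    intro q hq hqS hqlam P hP hqP σ hσ i
    have hPa := haway q hq hqS P hP hqP
    have hql : ∀ q' : ℕ, q'.Prime → (q' : ZBar) ∈ P → (q' : 𝓞 E) ∉ lam.asIdeal := by
      intro q' hq' hq'P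
      rw [← prime_unique hP hq hq' hqP hq'P]
      exact hqlam
    have hmon : (f (P.under (𝓞 F))).Monic := by
      apply Polynomial.monic_of_injective (Pool.Agent.H52.RO.inj_map (k := k) ι)
      rw [← hρ.frobenius P hPa σ hσ]
      exact Matrix.charpoly_monic _
    rcases hmod with h | ⟨κ, _, _, φ, r, s, hker, hsub, hfrob⟩
    · exact Ideal.Quotient.eq_zero_iff_mem.1 (coeff_zero_of_dvd _ hmon (h P hPa hql) i)
    · rw [← hker, RingHom.mem_ker]
      refine coeff_zero_of_dvd φ hmon ?_ i
      obtain ⟨h1, h2⟩ := hfrob P hPa hql σ hσ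
      rw [← h1, ← h2]
      exact Pool.Agent.X289.EI.dvd_pow_of_roots (Matrix.charpoly_monic _)
        (by rw [Matrix.charpoly_natDegree_eq_dim, Fintype.card_fin])
        (Pool.Agent.X289.EI.among_of_subquotient (ρ := r) (θ := s) hsub σ)
  have hzero := hcore N' ρ f W g a1 a2 b1 b2 lam hlam' hdiv
  refine inTensors_of (fun x => ?_) hirr
  rw [Pool.Agent.X289.EI.among_iff]
  have h1 := Pool.Agent.X289.EI.map_poly j (ρ x : Matrix (Fin n) (Fin n) k)
    (W x : Matrix (Fin N') (Fin N') k) n
  have h2 : (aeval (ρ x : Matrix (Fin n) (Fin n) k)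
      (W x : Matrix (Fin N') (Fin N') k).charpoly) ^ n = 0 := hzero x
  rw [h2] at h1
  have h3 : (0 : Matrix (Fin n) (Fin n) k).map j = 0 := by
    ext a c
    exact map_zero j
  rw [h3] at h1
  exact h1.symm

end Pool.Agent.Results.MP_2e0e07_nt.ResidualOrigin
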