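import Pool.Agent.H73.FF.Bridge

/-!
# Geometric origin over infinite solvable extensions

Let `K` be a field of characteristic zero, for example an imaginary quadratic field, `ℓ` a prime
number (the `p` of the problem) and `ρ` a continuous representation of `G_K` over `ℚ_ℓ-bar`, for
example the representation of a Bianchi newform. Let `L` be an algebraic extension of `K` of infinite
degree. Suppose that the restriction of `ρ` to `G_L` arises from the étale cohomology of a smooth
projective variety over `L`. The variety is defined over a finite subextension `K'` of `L`; regarded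
as a variety over `K` it has a cohomology `θ` (with a Tate twist), a representation of `G_K` whose
restriction to `G_K'` contains the given one. So `ρ|G_L` is a subquotient of `θ|G_L`. We ask how `ρ`
itself is then obtained from `θ` over `K`.

In the theorem the difference between `ρ` and the part of the cohomology is given by a character of
`Gal(L/M)` for a finite extension `M` of `K`. The proof is by an analogue of the theorem of Lie and
Kolchin for continuous representations of profinite groups.
-/

set_option autoImplicit false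

namespace Pool.Agent.Results.MP_2e0e07_nt.SolvableExtensions

open Pool.Agent.H73.FF.Stm

/-- Let `K` be a field of characteristic zero, `ℓ` a prime number, `ρ` and `θ` continuous
representations of `G_K` over `ℚ_ℓ-bar`, `ρ` irreducible, and `L/K` a Galois extension, of
finite or infinite degree, whose group is solvable (of finite derived length; the abelian layers may
be infinite).

There is a nonzero homomorphism from `ρ|G_L` to `θ|G_L` if and only if for
some finite subextension `M` of `L` and some continuous character `χ` of `Gal(L/M)` the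
representation `ρ` is a subrepresentation of the representation of `G_K` induced from `θ|G_M ⊗ χ`;
in particular this is so if `θ` is semisimple and `ρ|G_L` is a subquotient of `θ|G_L`. If `Gal(L/K)`
is abelian, there is a nonzero homomorphism from `ρ|G_L` to `θ|G_L` if and only if `ρ ⊗ χ` is a
subrepresentation of `θ` for some continuous character `χ` of `Gal(L/K)`. -/
theorem result (ℓ : ℕ) [Fact ℓ.Prime] (K : Type) [Field K] [CharZero K] (n m : ℕ)
    (ρ : Rep K ℓ n) (θ : Rep K ℓ m) (hρ : Continuous ρ) (hθ : Continuous θ)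
    (L : IntermediateField K (SeparableClosure K)) (hG : SolvableGalois L)
    (hirr : IrreducibleOn ⊤ ρ) :
    (Hom L ρ θ ↔ SubInducedOver L ρ θ) ∧
    (Semisimple θ → Subquotient (Grp L) ρ θ → SubInducedOver L ρ θ) ∧
    (AbelianExt L → (Hom L ρ θ ↔ TwistOver L ρ θ)) := by
  obtain ⟨hGal, d, hd⟩ := id hG
  have hn : (L.fixingSubgroup).Normal := (InfiniteGalois.normal_iff_isGalois L).mpr hGal
  have key : Hom L ρ θ → SubInducedOver L ρ θ := by
    intro h
    obtain ⟨M, hML, hMf, χ, hχc, hχL, X, hX, hXχ⟩ :=
      Pool.Agent.H73.FF.eigen_solvable ρ θ hρ hθ L hn d hd h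
    obtain ⟨Φ, hΦ1, hΦ2⟩ := Pool.Agent.H73.FF.induced_of_eigen ρ θ
      (Pool.Agent.H73.FF.irr_of_stm ρ hirr) M χ X hX hXχ
    refine ⟨M, ⟨hML, hMf⟩, χ⁻¹, ⟨?_, fun u hu => ?_⟩, Φ, hΦ1, fun v => ⟨?_, fun x => ?_⟩⟩
    · exact Pool.Agent.H73.FF.inv_cont M χ hχc
    · exact Pool.Agent.H73.FF.inv_one_of M χ u (hχL u hu)
    · exact fun u g => (hΦ2 v).1 u g
    · funext g
      exact (hΦ2 v).2 x g
  refine ⟨⟨key, ?_⟩, fun hss h =>
    key (Pool.Agent.H73.FF.hom_of_sub L ρ θ hn hirr.1 hss h), fun hab => ⟨?_, ?_⟩⟩
  · rintro ⟨M, ⟨hML, hMf⟩, χ, ⟨-, hχL⟩, Φ, hΦ1, hΦ2⟩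
    exact Pool.Agent.H73.FF.eigen_of_induced ρ θ hirr.1 L M hML χ hχL Φ hΦ1
      (fun v => ⟨fun u g => (hΦ2 v).1 u g, fun x g => congrFun ((hΦ2 v).2 x) g⟩)
  · intro h
    obtain ⟨χ, h1, h2, X, h3, h4⟩ := Pool.Agent.H73.FF.twist_abelian ρ θ hρ hθ
      (Pool.Agent.H73.FF.irr_of_stm ρ hirr) L hab h
    refine ⟨χ, h1, h2, X, h3, fun g => ?_⟩
    have h5 := h4 g
    show Pool.Agent.H73.FF.mat θ g * X = X * ((χ g : PadicAlgCl ℓ) •
      Pool.Agent.H73.FF.mat ρ g)
    rw [h5, Matrix.mul_smul]
  · rintro ⟨χ, -, hχ, X, hX, hXg⟩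
    refine ⟨X, ?_, fun g hg => ?_⟩
    · intro h0
      have h1 := hX (Pi.single ⟨0, hirr.1⟩ 1) (by rw [h0, Matrix.zero_mulVec])
      have h2 := congrFun h1 ⟨0, hirr.1⟩
      rw [Pi.single_eq_same] at h2
      exact one_ne_zero h2
    · have h5 : mat θ g * X = X * ((χ g : PadicAlgCl ℓ) • mat ρ g) := hXg g
      rw [hχ g hg, Units.val_one, one_smul] at h5
      exact h5


end Pool.Agent.Results.MP_2e0e07_nt.SolvableExtensions
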